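import Pool.Agent.Lib.MP_55c1e7_ag.Ac

/-!
# Extension of local elements of a coherent representation of `targ`
-/

open CategoryTheory CategoryTheory.Limits MP55c1e7

namespace BadRed

variable {k K : Type} [Field k] [Field K] [Algebra k K]



namespace TCSys

open LocData

variable {ObX ObZ I Lam : Type} [Preorder ObX] [SemilatticeSup ObZ]
variable (D : TCSys k K ObX ObZ I Lam)

lemma mem_targ {b : Bool} (c : Bool) {J J' : ObZ} (h : J ≤ J') {f : K} (hf : f ∈ D.R J') :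
    f ∈ (D.targ b).H (J, c) (J', c) := by
  refine ⟨?_, Or.inl h⟩
  rw [sub_self, HH_zero]
  exact hf

variable {D}

/-- multiplication by `f ∈ R J'` followed by restriction to `J'` -/
def tac {b : Bool} (N : Cat (D.targ b) ⥤ ModuleCat.{0} k) (c : Bool) {J J' : ObZ} (h : J ≤ J')
    (f : K) (hf : f ∈ D.R J') : N.obj ⟨(J, c)⟩ →ₗ[k] N.obj ⟨(J', c)⟩ :=
  act N f (D.mem_targ c h hf)

variable {b : Bool} {N : Cat (D.targ b) ⥤ ModuleCat.{0} k} {c : Bool}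

lemma tac_tac {J J' J'' : ObZ} (h : J ≤ J') (h' : J' ≤ J'') {f f' : K} (hf : f ∈ D.R J')
    (hf' : f' ∈ D.R J'') (m : N.obj ⟨(J, c)⟩) :
    tac N c h' f' hf' (tac N c h f hf m) =
      tac N c (h.trans h') (f * f') ((D.R J'').mul_mem (D.R_mono h' hf) hf') m := by
  unfold tac
  rw [act_mul]

lemma tac_congr {J J' : ObZ} (h : J ≤ J') {f f' : K} (hf : f ∈ D.R J') (hf' : f' ∈ D.R J')
    (e : f = f') (m : N.obj ⟨(J, c)⟩) : tac N c h f hf m = tac N c h f' hf' m := by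
  subst e; rfl

lemma tac_one {J : ObZ} (m : N.obj ⟨(J, c)⟩) (h : (1 : K) ∈ D.R J) :
    tac N c (le_refl J) 1 h m = m := by
  unfold tac
  rw [act_one]

/-- the coordinate quotient -/
lemma sigq_mem (J : ObZ) (i : I) (n : ℕ) : (D.sig (D.pt i) / D.sig J) ^ n ∈ D.R J :=
  (D.R J).pow_mem (D.sig_mem J i) n

lemma sigr_mem {J J' : ObZ} (h : J ≤ J') (n : ℕ) : (D.sig J / D.sig J') ^ n ∈ D.R J' :=
  (D.R J').pow_mem (D.sig_cart h).1 n

/-- surjectivity of localization, along the coordinate -/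
lemma loc_surj' (hN : IsCohRep N) (J : ObZ) (i : I) (m : N.obj ⟨(J ⊔ D.pt i, c)⟩) :
    ∃ (n : ℕ) (z : N.obj ⟨(J, c)⟩), tac N c le_sup_left 1 (D.R _).one_mem z =
      tac N c (le_refl _) ((D.sig (D.pt i) / D.sig J) ^ n)
        (D.R_mono le_sup_left (sigq_mem J i n)) m := by
  obtain ⟨h, hb, z, ha, h0, hinv, hh⟩ := hN.loc_surj (a := (J, c)) (b := (J ⊔ D.pt i, c))
    ⟨le_sup_left, rfl⟩ m
  have ha' : h ∈ D.R J := ha
  have hb' : h ∈ D.R (J ⊔ D.pt i) := hb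
  have hinv' : h⁻¹ ∈ D.R (J ⊔ D.pt i) := hinv
  obtain ⟨n, hn⟩ := D.sig_loc J i _ hinv'
  have hh' : tac N c (le_refl _) h hb' m = tac N c le_sup_left 1 (D.R _).one_mem z := hh
  refine ⟨n, tac N c (le_refl _) _ hn z, ?_⟩
  rw [tac_tac]
  have e1 : tac N c (le_sup_left : J ≤ J ⊔ D.pt i)
      ((D.sig (D.pt i) / D.sig J) ^ n * h⁻¹ * 1)
        ((D.R (J ⊔ D.pt i)).mul_mem (D.R_mono le_sup_left hn) (D.R _).one_mem) z =
      tac N c (le_refl _) ((D.sig (D.pt i) / D.sig J) ^ n * h⁻¹) (D.R_mono le_sup_left hn)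
        (tac N c le_sup_left 1 (D.R _).one_mem z) := by
    rw [tac_tac]
    exact tac_congr _ _ _ (by ring) z
  rw [e1, ← hh', tac_tac]
  exact tac_congr _ _ _ (by field_simp) m

/-- injectivity of localization, along the coordinate -/
lemma loc_inj' (hN : IsCohRep N) (J : ObZ) (i : I) (d : N.obj ⟨(J, c)⟩)
    (hd : tac N c (le_sup_left : J ≤ J ⊔ D.pt i) 1 (D.R _).one_mem d = 0) :
    ∃ n0 : ℕ, ∀ n, n0 ≤ n →
      tac N c (le_refl _) ((D.sig (D.pt i) / D.sig J) ^ n) (sigq_mem J i n) d = 0 := by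
  obtain ⟨h, ha, h0, hinv, hh⟩ := hN.loc_inj (a := (J, c)) (b := (J ⊔ D.pt i, c))
    ⟨le_sup_left, rfl⟩ d hd
  have ha' : h ∈ D.R J := ha
  have hinv' : h⁻¹ ∈ D.R (J ⊔ D.pt i) := hinv
  have hh' : tac N c (le_refl _) h ha' d = 0 := hh
  obtain ⟨n0, hn0⟩ := D.sig_loc J i _ hinv'
  refine ⟨n0, fun n hn => ?_⟩
  obtain ⟨l, rfl⟩ := Nat.exists_eq_add_of_le hn
  have e1 : tac N c (le_refl _) ((D.sig (D.pt i) / D.sig J) ^ (n0 + l)) (sigq_mem J i _) d =
      tac N c (le_refl _) ((D.sig (D.pt i) / D.sig J) ^ n0 * h⁻¹ * (D.sig (D.pt i) / D.sig J) ^ l)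
        ((D.R J).mul_mem hn0 (sigq_mem J i l)) (tac N c (le_refl _) h ha' d) := by
    rw [tac_tac]
    apply tac_congr
    rw [pow_add]
    field_simp
  rw [e1, hh', map_zero]

/-- EXTENSION LEMMA -/
theorem extension [Finite I] (hN : IsCohRep N) (i : I) (e : N.obj ⟨(D.pt i, c)⟩) :
    ∃ (n : ℕ) (y : ∀ J : ObZ, N.obj ⟨(J, c)⟩),
      (∀ {J J' : ObZ} (h : J ≤ J'),
        y J' = tac N c h ((D.sig J / D.sig J') ^ n) (sigr_mem h n) (y J)) ∧
      (∀ {J : ObZ} (h : D.pt i ≤ J),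
        y J = tac N c h ((D.sig (D.pt i) / D.sig J) ^ n) (sigr_mem h n) e) := by
  classical
  cases nonempty_fintype I
  -- extensions to the charts
  have A1 : ∀ j : I, ∃ (n : ℕ) (z : N.obj ⟨(D.pt j, c)⟩),
      tac N c (le_sup_left : D.pt j ≤ D.pt j ⊔ D.pt i) 1 (D.R _).one_mem z =
      tac N c (le_sup_right : D.pt i ≤ D.pt j ⊔ D.pt i) ((D.sig (D.pt i) / D.sig (D.pt j)) ^ n)
        (D.R_mono le_sup_left (sigq_mem _ i n)) e := by
    intro j
    obtain ⟨n, z, h⟩ := loc_surj' hN (D.pt j) i (tac N c le_sup_right 1 (D.R _).one_mem e)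
    refine ⟨n, z, ?_⟩
    rw [h, tac_tac]
    exact tac_congr _ _ _ (by ring) e
  choose n1 z1 hz1 using A1
  obtain ⟨n0, hn0⟩ : ∃ n0 : ℕ, ∀ j, n1 j ≤ n0 := by
    refine ⟨Finset.univ.sup n1, fun j => Finset.le_sup (Finset.mem_univ j)⟩
  have A2 : ∀ j : I, ∃ (z : N.obj ⟨(D.pt j, c)⟩),
      tac N c (le_sup_left : D.pt j ≤ D.pt j ⊔ D.pt i) 1 (D.R _).one_mem z =
      tac N c (le_sup_right : D.pt i ≤ D.pt j ⊔ D.pt i) ((D.sig (D.pt i) / D.sig (D.pt j)) ^ n0)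
        (D.R_mono le_sup_left (sigq_mem _ i n0)) e := by
    intro j
    obtain ⟨l, hl⟩ := Nat.exists_eq_add_of_le (hn0 j)
    refine ⟨tac N c (le_refl _) ((D.sig (D.pt i) / D.sig (D.pt j)) ^ l) (sigq_mem _ i l) (z1 j), ?_⟩
    have e1 : tac N c (le_sup_left : D.pt j ≤ D.pt j ⊔ D.pt i) 1 (D.R _).one_mem
        (tac N c (le_refl _) ((D.sig (D.pt i) / D.sig (D.pt j)) ^ l) (sigq_mem _ i l) (z1 j)) =
        tac N c (le_refl _) ((D.sig (D.pt i) / D.sig (D.pt j)) ^ l)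
          (D.R_mono le_sup_left (sigq_mem _ i l)) (tac N c le_sup_left 1 (D.R _).one_mem (z1 j)) := by
      rw [tac_tac, tac_tac]
      exact tac_congr _ _ _ (by ring) _
    rw [e1, hz1, tac_tac]
    exact tac_congr _ _ _ (by rw [hl, pow_add]) _
  choose z hz using A2
  -- agreement
  have A3 : ∀ j l : I, ∃ n : ℕ, ∀ n', n ≤ n' →
      tac N c (le_refl _) ((D.sig (D.pt i) / D.sig (D.pt j ⊔ D.pt l)) ^ n') (sigq_mem _ i n')
        (tac N c (le_sup_left : D.pt j ≤ D.pt j ⊔ D.pt l)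
          ((D.sig (D.pt j) / D.sig (D.pt j ⊔ D.pt l)) ^ n0) (sigr_mem le_sup_left n0) (z j)) =
      tac N c (le_refl _) ((D.sig (D.pt i) / D.sig (D.pt j ⊔ D.pt l)) ^ n') (sigq_mem _ i n')
        (tac N c (le_sup_right : D.pt l ≤ D.pt j ⊔ D.pt l)
          ((D.sig (D.pt l) / D.sig (D.pt j ⊔ D.pt l)) ^ n0) (sigr_mem le_sup_right n0) (z l)) := by
    intro j l
    have key : ∀ (q : I) (hq : D.pt q ≤ D.pt j ⊔ D.pt l),
        tac N c (le_sup_left : D.pt j ⊔ D.pt l ≤ (D.pt j ⊔ D.pt l) ⊔ D.pt i) 1 (D.R _).one_mem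
          (tac N c hq ((D.sig (D.pt q) / D.sig (D.pt j ⊔ D.pt l)) ^ n0) (sigr_mem hq n0) (z q)) =
        tac N c (le_sup_right : D.pt i ≤ (D.pt j ⊔ D.pt l) ⊔ D.pt i)
          ((D.sig (D.pt i) / D.sig (D.pt j ⊔ D.pt l)) ^ n0)
          (D.R_mono le_sup_left (sigq_mem _ i n0)) e := by
      intro q hq
      have hle : D.pt q ⊔ D.pt i ≤ (D.pt j ⊔ D.pt l) ⊔ D.pt i := sup_le_sup_right hq _
      have h1 := congrArg (tac N c hle ((D.sig (D.pt q) / D.sig (D.pt j ⊔ D.pt l)) ^ n0)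
        (D.R_mono le_sup_left (sigr_mem hq n0))) (hz q)
      rw [tac_tac, tac_tac] at h1
      rw [tac_tac]
      have h2 : tac N c (hq.trans (le_sup_left : D.pt j ⊔ D.pt l ≤ (D.pt j ⊔ D.pt l) ⊔ D.pt i))
          ((D.sig (D.pt q) / D.sig (D.pt j ⊔ D.pt l)) ^ n0 * 1)
          ((D.R _).mul_mem (D.R_mono le_sup_left (sigr_mem hq n0)) (D.R _).one_mem) (z q) =
          tac N c ((le_sup_left : D.pt q ≤ D.pt q ⊔ D.pt i).trans hle)
          (1 * (D.sig (D.pt q) / D.sig (D.pt j ⊔ D.pt l)) ^ n0)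
          ((D.R _).mul_mem (D.R _).one_mem (D.R_mono le_sup_left (sigr_mem hq n0))) (z q) :=
        tac_congr _ _ _ (by ring) _
      rw [h2, h1]
      apply tac_congr
      rw [← mul_pow]
      congr 1
      have := D.sig_ne (D.pt q)
      field_simp
    obtain ⟨n, hn⟩ := loc_inj' hN (D.pt j ⊔ D.pt l) i
      (tac N c (le_sup_left : D.pt j ≤ D.pt j ⊔ D.pt l)
          ((D.sig (D.pt j) / D.sig (D.pt j ⊔ D.pt l)) ^ n0) (sigr_mem le_sup_left n0) (z j) -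
        tac N c (le_sup_right : D.pt l ≤ D.pt j ⊔ D.pt l)
          ((D.sig (D.pt l) / D.sig (D.pt j ⊔ D.pt l)) ^ n0) (sigr_mem le_sup_right n0) (z l)) (by
        rw [map_sub, key j le_sup_left, key l le_sup_right, sub_self])
    refine ⟨n, fun n' hn' => ?_⟩
    have := hn n' hn'
    rw [map_sub, sub_eq_zero] at this
    exact this
  choose n2 hn2 using A3
  obtain ⟨N1, hN1⟩ : ∃ N1 : ℕ, ∀ j l, n2 j l ≤ N1 := by
    refine ⟨Finset.univ.sup fun p : I × I => n2 p.1 p.2, fun j l => ?_⟩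
    exact Finset.le_sup (f := fun p : I × I => n2 p.1 p.2) (Finset.mem_univ (j, l))
  -- independence of the chart
  have A4 : ∀ (J : ObZ) (j l : I) (hj : D.pt j ≤ J) (hl : D.pt l ≤ J),
      tac N c hj ((D.sig (D.pt j) / D.sig J) ^ n0 * (D.sig (D.pt i) / D.sig J) ^ N1)
        ((D.R J).mul_mem (sigr_mem hj n0) (sigq_mem J i N1)) (z j) =
      tac N c hl ((D.sig (D.pt l) / D.sig J) ^ n0 * (D.sig (D.pt i) / D.sig J) ^ N1)
        ((D.R J).mul_mem (sigr_mem hl n0) (sigq_mem J i N1)) (z l) := by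
    intro J j l hj hl
    have hle : D.pt j ⊔ D.pt l ≤ J := sup_le hj hl
    have h1 := congrArg (tac N c hle ((D.sig (D.pt j ⊔ D.pt l) / D.sig J) ^ (n0 + N1))
      (sigr_mem hle _)) (hn2 j l N1 (hN1 j l))
    rw [tac_tac, tac_tac, tac_tac, tac_tac] at h1
    have hs := D.sig_ne (D.pt j ⊔ D.pt l)
    have hsJ := D.sig_ne J
    have e2 : ∀ x : K, (x / D.sig J) ^ n0 * (D.sig (D.pt i) / D.sig J) ^ N1 =
        (x / D.sig (D.pt j ⊔ D.pt l)) ^ n0 * ((D.sig (D.pt i) / D.sig (D.pt j ⊔ D.pt l)) ^ N1 *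
          (D.sig (D.pt j ⊔ D.pt l) / D.sig J) ^ (n0 + N1)) := by
      intro x
      rw [pow_add]
      have a1 : x / D.sig J = (x / D.sig (D.pt j ⊔ D.pt l)) *
        (D.sig (D.pt j ⊔ D.pt l) / D.sig J) := by field_simp
      have a2 : D.sig (D.pt i) / D.sig J = (D.sig (D.pt i) / D.sig (D.pt j ⊔ D.pt l)) *
        (D.sig (D.pt j ⊔ D.pt l) / D.sig J) := by field_simp
      rw [a1, a2, mul_pow, mul_pow]
      ring
    calc _ = _ := tac_congr _ _ _ (e2 _) _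
      _ = _ := h1
      _ = _ := tac_congr _ _ _ (e2 _).symm _
  choose jj hjj using D.cover
  refine ⟨n0 + N1, fun J => tac N c (hjj J)
    ((D.sig (D.pt (jj J)) / D.sig J) ^ n0 * (D.sig (D.pt i) / D.sig J) ^ N1)
      ((D.R J).mul_mem (sigr_mem (hjj J) n0) (sigq_mem J i N1)) (z (jj J)), ?_, ?_⟩
  · intro J J' h
    dsimp only
    rw [A4 J' (jj J') (jj J) (hjj J') ((hjj J).trans h), tac_tac]
    apply tac_congr
    have hs := D.sig_ne J
    have hsJ := D.sig_ne J'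
    rw [pow_add]
    have a1 : ∀ x : K, x / D.sig J' = (x / D.sig J) * (D.sig J / D.sig J') := by
      intro x; field_simp
    rw [a1 (D.sig (D.pt (jj J))), a1 (D.sig (D.pt i)), mul_pow, mul_pow]
    ring
  · intro J h
    dsimp only
    rw [A4 J (jj J) i (hjj J) h]
    have hle : D.pt i ⊔ D.pt i ≤ J := sup_le h h
    have h1 := congrArg (tac N c hle ((D.sig (D.pt i) / D.sig J) ^ (n0 + N1)) (sigr_mem h _)) (hz i)
    rw [tac_tac, tac_tac] at h1
    have hs := D.sig_ne (D.pt i)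
    calc _ = _ := tac_congr _ _ _ (by rw [pow_add, one_mul]) _
      _ = _ := h1
      _ = _ := tac_congr _ _ _ (by rw [div_self hs, one_pow, one_mul]) _

end TCSys

end BadRed
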