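import Pool.Agent.Lib.MP_55c1e7_ag.T.PHom

/-!
# The test objects generate
-/

open CategoryTheory CategoryTheory.Limits MP55c1e7

namespace BadRed

open Ch LocData

variable {k K : Type} [Field k] [Field K] [Algebra k K]
variable {ObX ObZ I Lam : Type} [Preorder ObX] [SemilatticeSup ObZ]

namespace TCSys

variable (D : TCSys k K ObX ObZ I Lam) (b : Bool) {ι : Type} [Finite ι] (c : ι → Bool) (n : ι → ℕ)

lemma coef_add {l : ℤ} (J : ObZ) (m m' : D.H0k (D.tg b c n).E J l) (q : ι) :
    D.coef b c n J (m + m') q = D.coef b c n J m q + D.coef b c n J m' q := by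
  change ((show (D.tg b c n).sub (D.s c0 J) from m.1.1).1 q +
    (show (D.tg b c n).sub (D.s c0 J) from m'.1.1).1 q) * D.gen (D.s c0 J) ^ l * D.sig J ^ n q = _
  unfold coef
  ring

lemma coef_smul {l : ℤ} (J : ObZ) (r : k) (m : D.H0k (D.tg b c n).E J l) (q : ι) :
    D.coef b c n J (r • m) q = r • D.coef b c n J m q := by
  change (r • (show (D.tg b c n).sub (D.s c0 J) from m.1.1).1 q) * D.gen (D.s c0 J) ^ l *
    D.sig J ^ n q = _
  unfold coef
  rw [smul_mul_assoc, smul_mul_assoc]

lemma coef_resH {J J' : ObZ} (h : J ≤ J') {l l' : ℤ} (f : K) (hf : f ∈ D.HH (l' - l) J')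
    (m : D.H0k (D.tg b c n).E J l) (q : ι) :
    D.coef b c n J' (D.resH (D.tg b c n).E h f hf m) q * (D.sig J / D.sig J') ^ n q =
      f * D.coef b c n J m q := by
  change (D.cf c0 J J' l l' f * (show (D.tg b c n).sub (D.s c0 J) from m.1.1).1 q) *
    D.gen (D.s c0 J') ^ l' * D.sig J' ^ n q * (D.sig J / D.sig J') ^ n q = _
  unfold coef cf
  rw [div_pow, zpow_neg]
  have h3 := zpow_ne_zero l' (D.gen_ne (D.s c0 J'))
  have h4 := pow_ne_zero (n q) (D.sig_ne J')
  field_simp

variable (N : CohRep (D.targ b))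

/-- the morphism `Psi E ⟶ N` attached to compatible elements, on objects -/
noncomputable def phomAux [Fintype ι] (y : ∀ (q : ι) (J : ObZ), N.obj.obj ⟨(J, c q)⟩)
    (J : ObZ) (d : Bool) : D.H0k (D.tg b c n).E J (lab b d) →ₗ[k] N.obj.obj ⟨(J, d)⟩ where
  toFun m := ∑ q, act N.obj (D.coef b c n J m q) (D.coef_mem' b c n m q) (y q J)
  map_add' x x' := by
    rw [← Finset.sum_add_distrib]
    refine Finset.sum_congr rfl fun q _ => ?_
    rw [← N.property.lin.act_add]
    exact act_congr _ _ (D.coef_add b c n J x x' q) _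
  map_smul' r x := by
    rw [RingHom.id_apply, Finset.smul_sum]
    refine Finset.sum_congr rfl fun q _ => ?_
    rw [← N.property.lin.act_smul]
    exact act_congr _ _ (D.coef_smul b c n J r x q) _

lemma phomAux_nat [Fintype ι] (y : ∀ (q : ι) (J : ObZ), N.obj.obj ⟨(J, c q)⟩)
    (hy : ∀ (q : ι) {J J' : ObZ} (h : J ≤ J'),
      y q J' = tac N.obj (c q) h ((D.sig J / D.sig J') ^ n q) (sigr_mem h _) (y q J))
    {J J' : ObZ} (h : J ≤ J') {d d' : Bool} (f : K) (hf : f ∈ (D.targ b).H (J, d) (J', d'))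
    (m : D.H0k (D.tg b c n).E J (lab b d)) :
    D.phomAux b c n N y J' d' (D.pmap b (D.tg b c n).E (x := (J, d)) (y := (J', d')) f hf m) =
      act N.obj f hf (D.phomAux b c n N y J d m) := by
  rw [D.pmap_of_le b _ (x := (J, d)) (y := (J', d')) _ _ h]
  change ∑ q, act N.obj (D.coef b c n J' (D.resH (D.tg b c n).E h f hf.1 m) q) _ (y q J') =
    act N.obj f hf (∑ q, act N.obj (D.coef b c n J m q) (D.coef_mem' b c n m q) (y q J))
  rw [map_sum]
  refine Finset.sum_congr rfl fun q _ => ?_
  rw [hy q h, tac, act_mul, act_mul]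
  refine act_congr _ _ ?_ _
  rw [mul_comm, coef_resH, mul_comm]

/-- the morphism `Psi E ⟶ N` attached to compatible elements -/
noncomputable def phom [Fintype ι] (y : ∀ (q : ι) (J : ObZ), N.obj.obj ⟨(J, c q)⟩)
    (hy : ∀ (q : ι) {J J' : ObZ} (h : J ≤ J'),
      y q J' = tac N.obj (c q) h ((D.sig J / D.sig J') ^ n q) (sigr_mem h _) (y q J)) :
    (D.Psi b).obj (D.tg b c n).E ⟶ N :=
  ObjectProperty.homMk
    { app := fun x => ModuleCat.ofHom (D.phomAux b c n N y x.of.1 x.of.2)
      naturality := by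
        intro x x' f
        apply ModuleCat.hom_ext
        apply LinearMap.ext
        intro v
        obtain ⟨h1, h2⟩ := val_mem f
        by_cases h : x.of.1 ≤ x'.of.1
        · exact D.phomAux_nat b c n N y hy h (val f) (val_mem f) v
        · have h0 : f = 0 := LocData.hom_ext (h2.resolve_left h)
          have e1 : ((D.Psi b).obj (D.tg b c n).E).obj.map f = 0 := by
            rw [h0]
            have := ((D.Psi b).obj (D.tg b c n).E).property.map_smul (0 : k) (0 : x ⟶ x')
            rw [smul_zero] at this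
            rw [this, zero_smul]
          have e2 : N.obj.map f = 0 := by
            rw [h0]
            have := N.property.map_smul (0 : k) (0 : x ⟶ x')
            rw [smul_zero] at this
            rw [this, zero_smul]
          rw [e1, e2]
          exact map_zero (D.phomAux b c n N y x'.of.1 x'.of.2) }

/-- a section of `Psi E` with given coefficients in the ring of the base -/
def sec (J : ObZ) (d : Bool) (x : ι → K) (hx : ∀ q, x q ∈ D.HH (lab b d - lab b (c q)) J) :
    D.H0k (D.tg b c n).E J (lab b d) :=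
  ⟨(⟨fun q => x q * D.gen (D.s c0 J) ^ (-(lab b d)) / D.sig J ^ n q, by
      intro q
      dsimp only
      rw [tg_inv]
      have h1 := mem_pw.mp (hx q).1
      have h2 := D.gen_ne (D.s c0 J)
      rw [show -(lab b d - lab b (c q)) = -(lab b d) + lab b (c q) by ring, zpow_add₀ h2] at h1
      have e : x q * D.gen (D.s c0 J) ^ (-(lab b d)) / D.sig J ^ n q *
          D.gen (D.s c0 J) ^ lab b (c q) * D.sig J ^ n q =
          x q * (D.gen (D.s c0 J) ^ (-(lab b d)) * D.gen (D.s c0 J) ^ lab b (c q)) := by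
        have h4 := pow_ne_zero (n q) (D.sig_ne J)
        field_simp
      rw [e]
      exact h1⟩,
    ⟨fun q => x q * D.gen (D.s c1 J) ^ (-(lab b d)) / D.sig J ^ n q, by
      intro q
      dsimp only
      rw [tg_inv]
      have h1 := mem_pw.mp (hx q).2
      have h2 := D.gen_ne (D.s c1 J)
      rw [show -(lab b d - lab b (c q)) = -(lab b d) + lab b (c q) by ring, zpow_add₀ h2] at h1
      have e : x q * D.gen (D.s c1 J) ^ (-(lab b d)) / D.sig J ^ n q *
          D.gen (D.s c1 J) ^ lab b (c q) * D.sig J ^ n q =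
          x q * (D.gen (D.s c1 J) ^ (-(lab b d)) * D.gen (D.s c1 J) ^ lab b (c q)) := by
        have h4 := pow_ne_zero (n q) (D.sig_ne J)
        field_simp
      rw [e]
      exact h1⟩), by
    rw [mem_H0k]
    apply Subtype.ext
    funext q
    change 1 * (x q * D.gen (D.s c0 J) ^ (-(lab b d)) / D.sig J ^ n q) = D.u J ^ lab b d *
      (x q * D.gen (D.s c1 J) ^ (-(lab b d)) / D.sig J ^ n q)
    rw [u, div_zpow, zpow_neg, zpow_neg]
    have h3 := zpow_ne_zero (lab b d) (D.gen_ne (D.s c0 J))
    have h4 := zpow_ne_zero (lab b d) (D.gen_ne (D.s c1 J))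
    have h5 := pow_ne_zero (n q) (D.sig_ne J)
    field_simp⟩

lemma coef_sec (J : ObZ) (d : Bool) (x : ι → K) (hx : ∀ q, x q ∈ D.HH (lab b d - lab b (c q)) J)
    (q : ι) : D.coef b c n J (D.sec b c n J d x hx) q = x q := by
  change (x q * D.gen (D.s c0 J) ^ (-(lab b d)) / D.sig J ^ n q) * D.gen (D.s c0 J) ^ lab b d *
    D.sig J ^ n q = x q
  rw [zpow_neg]
  have h3 := zpow_ne_zero (lab b d) (D.gen_ne (D.s c0 J))
  have h5 := pow_ne_zero (n q) (D.sig_ne J)
  field_simp

end TCSys

end BadRed
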