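import Pool.Agent.Lib.MP_55c1e7_ag.T.Gen

/-!
# Generation by the test objects; morphisms out of test objects
-/

open CategoryTheory CategoryTheory.Limits MP55c1e7

namespace BadRed

open Ch LocData

variable {k K : Type} [Field k] [Field K] [Algebra k K]
variable {ObX ObZ I Lam : Type} [Preorder ObX] [SemilatticeSup ObZ]

namespace TCSys

variable (D : TCSys k K ObX ObZ I Lam) (b : Bool)

theorem exists_gen [Finite I] (N : CohRep (D.targ b)) :
    ∃ (ι : Type) (_ : Finite ι) (c : ι → Bool) (n : ι → ℕ)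
      (p : (D.Psi b).obj (D.tg b c n).E ⟶ N), Epi p := by
  classical
  choose r e he using fun ic : I × Bool => N.property.fin (D.pt ic.1, ic.2)
  choose n y hA hB using fun q : (Σ ic : I × Bool, Fin (r ic)) =>
    extension (D := D) (b := b) (c := q.1.2) N.property q.1.1 (e q.1 q.2)
  cases nonempty_fintype I
  refine ⟨_, inferInstanceAs (Finite (Σ ic : I × Bool, Fin (r ic))), fun q => q.1.2, n, D.phom b _ n N y (fun q J J' h => hA q h), ?_⟩
  rw [epi_full_iff_pt]
  rintro ⟨⟨J, d⟩⟩ m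
  obtain ⟨i, hi⟩ := D.cover J
  obtain ⟨h, hb, x, ha, h0, hinv, hh⟩ := N.property.loc_surj (a := (D.pt i, d)) (b := (J, d))
    ⟨hi, rfl⟩ m
  obtain ⟨cc, hc⟩ := he (i, d) x
  have ha' : h ∈ D.R (D.pt i) := ha
  have hinv' : h⁻¹ ∈ D.R J := hinv
  have hcc : ∀ l, (cc l : K) ∈ D.R (D.pt i) := fun l => (cc l).2
  -- the coefficients
  let X : (Σ ic : I × Bool, Fin (r ic)) → K := fun q =>
    if hq : q.1 = (i, d) then h⁻¹ * (cc (hq ▸ q.2) : K) * (D.sig J / D.sig (D.pt i)) ^ n q else 0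
  have hX0 : ∀ q, q.1 ≠ (i, d) → X q = 0 := fun q hq => dif_neg hq
  have hX1 : ∀ l, X ⟨(i, d), l⟩ = h⁻¹ * (cc l : K) * (D.sig J / D.sig (D.pt i)) ^
      n ⟨(i, d), l⟩ := fun l => dif_pos rfl
  have hXR : ∀ q, X q ∈ D.HH (lab b d - lab b q.1.2) J := by
    rintro ⟨ic, l⟩
    by_cases hq : ic = (i, d)
    · subst hq
      rw [hX1]
      dsimp only
      rw [sub_self, HH_zero]
      exact (D.R J).mul_mem ((D.R J).mul_mem hinv' (D.R_mono hi (hcc l)))
        ((D.R J).pow_mem (D.sig_cart hi).2 _)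
    · rw [hX0 _ hq]
      exact Submodule.zero_mem _
  have hXH : ∀ q, X q ∈ (D.targ b).H (J, q.1.2) (J, d) := fun q => ⟨hXR q, Or.inl le_rfl⟩
  refine ⟨D.sec b _ n J d X hXR, ?_⟩
  have e1 : ∀ q, act N.obj (D.coef b (fun q : (Σ ic : I × Bool, Fin (r ic)) => q.1.2) n J
      (D.sec b _ n J d X hXR) q) (D.coef_mem' b _ n _ q) (y q J) =
      act N.obj (X q) (hXH q) (y q J) := fun q => act_congr _ _ (D.coef_sec b _ n J d X hXR q) _
  refine (Finset.sum_congr rfl (fun q _ => e1 q)).trans ?_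
  -- reduce to the summands over `(i, d)`
  rw [Fintype.sum_sigma, Finset.sum_eq_single (i, d)]
  · have e2 : ∀ l, act N.obj (X ⟨(i, d), l⟩) (hXH ⟨(i, d), l⟩) (y ⟨(i, d), l⟩ J) =
        tac N.obj d hi (h⁻¹ * (cc l : K)) ((D.R J).mul_mem hinv' (D.R_mono hi (hcc l)))
          (e (i, d) l) := by
      intro l
      rw [hB ⟨(i, d), l⟩ hi, tac, act_mul]
      refine act_congr _ _ ?_ _
      rw [hX1, mul_comm, mul_assoc, ← mul_pow, div_mul_div_cancel₀ (D.sig_ne _),
        div_self (D.sig_ne _), one_pow, mul_one]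
    rw [Finset.sum_congr rfl (fun l _ => e2 l)]
    have hb' : h ∈ D.R J := hb
    have e3 : m = tac N.obj d le_rfl h⁻¹ hinv' (tac N.obj d le_rfl h hb' m) := by
      rw [tac_tac]
      refine Eq.trans ?_ (tac_congr _ (D.R J).one_mem _ (mul_inv_cancel₀ h0).symm m)
      rw [tac_one]
    have hh' : tac N.obj d (le_refl J) h hb' m = tac N.obj d hi 1 (D.R J).one_mem x := hh
    rw [e3, hh', hc, map_sum, map_sum]
    refine Finset.sum_congr rfl fun l _ => ?_
    have e4 : act N.obj (cc l : K) (mem_R.mpr (cc l).2) (e (i, d) l) =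
      tac N.obj d le_rfl (cc l : K) (hcc l) (e (i, d) l) := rfl
    rw [e4, tac_tac, tac_tac]
    exact tac_congr _ _ _ (by ring) _
  · intro ic _ hic
    refine Finset.sum_eq_zero fun l _ => ?_
    exact (act_congr _ _ (hX0 ⟨ic, l⟩ hic) _).trans (N.property.lin.act_zero _ _)
  · intro h
    exact absurd (Finset.mem_univ _) h

end TCSys

end BadRed
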