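import Pool.Agent.Lib.MP_55c1e7_ag.Ac

/-!
# Finite sums of line bundles on a two-chart system

`G : D.Gens ι` gives for every `q : ι` local generators `G.g q S` of a line bundle; `G.E` is the
coherent representation `S ↦ ∏ q, g q S • A S`. Morphisms out of `G.E` are families of compatible
local elements.
-/

open CategoryTheory CategoryTheory.Limits MP55c1e7

namespace BadRed

open Ch LocData

variable {k K : Type} [Field k] [Field K] [Algebra k K]
variable {ObX ObZ I Lam : Type} [Preorder ObX] [SemilatticeSup ObZ]

namespace TCSys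

variable (D : TCSys k K ObX ObZ I Lam)

/-- local generators of a family of line bundles -/
structure Gens (ι : Type) where
  g : ι → ObX → K
  ne : ∀ q S, g q S ≠ 0
  cart : ∀ (q : ι) {S T : ObX}, S ≤ T → g q S / g q T ∈ D.A T ∧ g q T / g q S ∈ D.A T

namespace Gens

variable {D} {ι : Type} (G : D.Gens ι)

/-- sections over `S` -/
def sub (S : ObX) : Submodule k (ι → K) where
  carrier := {v | ∀ q, v q / G.g q S ∈ D.A S}
  add_mem' := by
    intro a b ha hb q
    rw [Pi.add_apply, add_div]
    exact (D.A S).add_mem (ha q) (hb q)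
  zero_mem' := by
    intro q
    rw [Pi.zero_apply, zero_div]
    exact (D.A S).zero_mem
  smul_mem' := by
    intro c a ha q
    rw [Pi.smul_apply, smul_div_assoc]
    exact (D.A S).smul_mem (ha q) c

lemma mul_mem {S T : ObX} {f : K} (hf : f ∈ D.src.H S T) {v : ι → K} (hv : v ∈ G.sub S) :
    (fun q => f * v q) ∈ G.sub T := by
  intro q
  obtain ⟨h1, h2⟩ := hf
  rcases h2 with h | h
  · have e : f * v q / G.g q T = f * (v q / G.g q S) * (G.g q S / G.g q T) := by
      have := G.ne q S
      field_simp
    dsimp only
    rw [e]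
    exact (D.A T).mul_mem ((D.A T).mul_mem h1 (D.mono h (hv q))) (G.cart q h).1
  · dsimp only
    rw [h, zero_mul, zero_div]
    exact (D.A T).zero_mem

/-- multiplication -/
def mulMap {S T : ObX} (f : K) (hf : f ∈ D.src.H S T) : G.sub S →ₗ[k] G.sub T where
  toFun v := ⟨fun q => f * v.1 q, G.mul_mem hf v.2⟩
  map_add' a b := by
    apply Subtype.ext
    funext q
    exact mul_add _ _ _
  map_smul' c a := by
    apply Subtype.ext
    funext q
    exact mul_smul_comm _ _ _

/-- the underlying functor -/
def fobj : Cat D.src ⥤ ModuleCat.{0} k where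
  obj S := ModuleCat.of k (G.sub S.of)
  map f := ModuleCat.ofHom (G.mulMap (val f) (val_mem f))
  map_id S := by
    apply ModuleCat.hom_ext
    apply LinearMap.ext
    intro m
    apply Subtype.ext
    funext q
    exact one_mul _
  map_comp f g := by
    apply ModuleCat.hom_ext
    apply LinearMap.ext
    intro m
    apply Subtype.ext
    funext q
    change val f * val g * m.1 q = val g * (val f * m.1 q)
    ring

/-- the basis elements -/
def bas [DecidableEq ι] (S : ObX) (q : ι) : G.sub S := ⟨Pi.single q (G.g q S), by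
  intro q'
  by_cases h : q' = q
  · subst h
    rw [Pi.single_eq_same, div_self (G.ne _ _)]
    exact (D.A S).one_mem
  · rw [Pi.single_eq_of_ne h, zero_div]
    exact (D.A S).zero_mem⟩

lemma isCoh [Finite ι] : IsCohRep G.fobj where
  map_add f g := by
    apply ModuleCat.hom_ext
    apply LinearMap.ext
    intro m
    apply Subtype.ext
    funext q
    exact add_mul _ _ _
  map_smul r f := by
    apply ModuleCat.hom_ext
    apply LinearMap.ext
    intro m
    apply Subtype.ext
    funext q
    exact smul_mul_assoc _ _ _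
  fin S := by
    classical
    cases nonempty_fintype ι
    let e := (Fintype.equivFin ι).symm
    refine ⟨Fintype.card ι, fun i => G.bas S (e i), fun m => ?_⟩
    have hm : ∀ q, (show G.sub S from m).1 q / G.g q S ∈ D.A S := (show G.sub S from m).2
    refine ⟨fun i => ⟨(show G.sub S from m).1 (e i) / G.g (e i) S, hm (e i)⟩, ?_⟩
    have key : (show G.sub S from m) = ∑ i, G.mulMap ((show G.sub S from m).1 (e i) / G.g (e i) S)
        (D.mem_src le_rfl (hm (e i))) (G.bas S (e i)) := by
      apply Subtype.ext
      rw [AddSubmonoidClass.coe_finsetSum]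
      funext q
      rw [Finset.sum_apply]
      have h1 : ∀ i, (G.mulMap ((show G.sub S from m).1 (e i) / G.g (e i) S)
        (D.mem_src le_rfl (hm (e i))) (G.bas S (e i))).1 q =
          if e i = q then (show G.sub S from m).1 q else 0 := by
        intro i
        change _ * (Pi.single (e i) (G.g (e i) S) : ι → K) q = _
        split_ifs with h
        · subst h
          rw [Pi.single_eq_same, div_mul_cancel₀ _ (G.ne _ _)]
        · rw [Pi.single_eq_of_ne (Ne.symm h), mul_zero]
      rw [Finset.sum_congr rfl (fun i _ => h1 i)]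
      rw [Finset.sum_eq_single (e.symm q)]
      · rw [if_pos (e.apply_symm_apply q)]
      · intro b _ hb
        rw [if_neg]
        intro h
        exact hb (by rw [← h, e.symm_apply_apply])
      · intro h
        exact absurd (Finset.mem_univ _) h
    exact key
  loc_surj {S T} r m := by
    classical
    cases nonempty_fintype ι
    have hm : ∀ q, (show G.sub T from m).1 q / G.g q T ∈ D.A T := (show G.sub T from m).2
    have h1 : ∀ q, ∃ h ∈ D.A S, h ≠ 0 ∧ h⁻¹ ∈ D.A T ∧
        h * ((show G.sub T from m).1 q / G.g q S) ∈ D.A S := by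
      intro q
      refine D.denX r _ ?_
      have e : (show G.sub T from m).1 q / G.g q S =
          (show G.sub T from m).1 q / G.g q T * (G.g q T / G.g q S) := by
        have := G.ne q T
        field_simp
      rw [e]
      exact (D.A T).mul_mem (hm q) (G.cart q r).2
    choose h hS h0 hi hh using h1
    have hP : ∏ q, h q ∈ D.A S := (D.A S).prod_mem fun q _ => hS q
    have hn : (fun q => (∏ q, h q) * (show G.sub T from m).1 q) ∈ G.sub S := by
      intro q
      dsimp only
      rw [← Finset.mul_prod_erase _ _ (Finset.mem_univ q), mul_comm (h q), mul_assoc,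
        mul_div_assoc, mul_div_assoc]
      exact (D.A S).mul_mem ((D.A S).prod_mem fun q _ => hS q) (hh q)
    refine ⟨∏ q, h q, D.mono r hP, ⟨_, hn⟩, hP, Finset.prod_ne_zero_iff.2 fun q _ => h0 q, ?_, ?_⟩
    · rw [← Finset.prod_inv_distrib]
      exact (D.A T).prod_mem fun q _ => hi q
    · apply Subtype.ext
      funext q
      exact (one_mul _).symm
  loc_inj {S T} r n hn := by
    refine ⟨1, (D.A S).one_mem, one_ne_zero, by rw [inv_one]; exact (D.A T).one_mem, ?_⟩
    have h1 : G.mulMap 1 (D.src.rel_one r) (show G.sub S from n) = 0 := hn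
    have h2 : (show G.sub S from n) = 0 := by
      apply Subtype.ext
      funext q
      have h3 := congrFun (congrArg Subtype.val h1) q
      have h4 : (1 : K) * (show G.sub S from n).1 q = 0 := h3
      rwa [one_mul] at h4
    have h5 : n = 0 := h2
    rw [h5, map_zero]

variable [Finite ι]

/-- the sum of the line bundles -/
def E : CohRep D.src := ⟨G.fobj, G.isCoh⟩

lemma ac_coe {S T : ObX} (h : S ≤ T) (f : K) (hf : f ∈ D.A T) (v : G.sub S) (q : ι) :
    (show G.sub T from D.ac G.E h f hf v).1 q = f * v.1 q := rfl

/-- component of a morphism -/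
def cp {F F' : CohRep D.src} (φ : F ⟶ F') (S : ObX) : D.V F S →ₗ[k] D.V F' S :=
  (φ.hom.app ⟨S⟩).hom

lemma cp_ac {F F' : CohRep D.src} (φ : F ⟶ F') {S T : ObX} (h : S ≤ T) (f : K) (hf : f ∈ D.A T)
    (m : D.V F S) : cp φ T (D.ac F h f hf m) = D.ac F' h f hf (cp φ S m) :=
  act_naturality φ.hom (D.mem_src h hf) m

lemma cp_ext {F F' : CohRep D.src} {φ ψ : F ⟶ F'} (h : ∀ S m, cp φ S m = cp ψ S m) : φ = ψ := by
  ext S m
  exact h S.of m

lemma decomp [Fintype ι] [DecidableEq ι] (S : ObX) (v : G.sub S) :
    (show D.V G.E S from v) =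
      ∑ q, D.ac G.E le_rfl (v.1 q / G.g q S) (v.2 q) (show D.V G.E S from G.bas S q) := by
  have key : v = ∑ q, G.mulMap (v.1 q / G.g q S) (D.mem_src le_rfl (v.2 q)) (G.bas S q) := by
    apply Subtype.ext
    rw [AddSubmonoidClass.coe_finsetSum]
    funext q
    rw [Finset.sum_apply, Finset.sum_eq_single q]
    · change _ = _ * (Pi.single q (G.g q S) : ι → K) q
      rw [Pi.single_eq_same, div_mul_cancel₀ _ (G.ne _ _)]
    · intro b _ hb
      change _ * (Pi.single b (G.g b S) : ι → K) q = 0
      rw [Pi.single_eq_of_ne (Ne.symm hb), mul_zero]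
    · intro h
      exact absurd (Finset.mem_univ _) h
  exact key

/-- a morphism out of `G.E` is determined by the images of the basis elements -/
lemma hom_ext' [DecidableEq ι] {F : CohRep D.src} {φ ψ : G.E ⟶ F}
    (h : ∀ S q, cp φ S (show D.V G.E S from G.bas S q) =
      cp ψ S (show D.V G.E S from G.bas S q)) : φ = ψ := by
  cases nonempty_fintype ι
  apply cp_ext
  intro S m
  rw [G.decomp S m, map_sum, map_sum]
  refine Finset.sum_congr rfl fun q _ => ?_
  rw [cp_ac, cp_ac, h]

/-- the components of the morphism attached to local elements -/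
noncomputable def homAux [Fintype ι] (F : CohRep D.src) (x : ι → ∀ S, D.V F S) (S : ObX) :
    G.sub S →ₗ[k] D.V F S where
  toFun v := ∑ q, D.ac F le_rfl (v.1 q / G.g q S) (v.2 q) (x q S)
  map_add' a b := by
    rw [← Finset.sum_add_distrib]
    refine Finset.sum_congr rfl fun q _ => ?_
    rw [← ac_add]
    exact ac_congr _ _ (add_div _ _ _) _
  map_smul' r a := by
    rw [RingHom.id_apply, Finset.smul_sum]
    refine Finset.sum_congr rfl fun q _ => ?_
    rw [← ac_smul]
    exact ac_congr _ _ (smul_div_assoc _ _ _) _

omit [Finite ι] in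
lemma homAux_nat [Fintype ι] (F : CohRep D.src) (x : ι → ∀ S, D.V F S)
    (hx : ∀ (q : ι) {S T : ObX} (h : S ≤ T),
      x q T = D.ac F h (G.g q T / G.g q S) (G.cart q h).2 (x q S))
    {S T : ObX} (h : S ≤ T) (f : K) (hf : f ∈ D.A T) (v : G.sub S) :
    G.homAux F x T (G.mulMap f (D.mem_src h hf) v) = D.ac F h f hf (G.homAux F x S v) := by
  change ∑ q, D.ac F le_rfl ((f * v.1 q) / G.g q T) _ (x q T) = D.ac F h f hf
      (∑ q, D.ac F le_rfl (v.1 q / G.g q S) _ (x q S))
  rw [map_sum]
  refine Finset.sum_congr rfl fun q _ => ?_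
  rw [hx q h]
  refine ac_comm _ _ _ _ _ _ _ _ ?_ _
  have := G.ne q S
  have := G.ne q T
  field_simp

/-- the morphism attached to a compatible family of local elements -/
noncomputable def hom [Fintype ι] (F : CohRep D.src) (x : ι → ∀ S, D.V F S)
    (hx : ∀ (q : ι) {S T : ObX} (h : S ≤ T),
      x q T = D.ac F h (G.g q T / G.g q S) (G.cart q h).2 (x q S)) : G.E ⟶ F :=
  ObjectProperty.homMk
    { app := fun S => ModuleCat.ofHom (G.homAux F x S.of)
      naturality := by
        intro S T f
        apply ModuleCat.hom_ext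
        apply LinearMap.ext
        intro v
        obtain ⟨h1, h2⟩ := val_mem f
        by_cases h : S.of ≤ T.of
        · exact G.homAux_nat F x hx h (val f) h1 v
        · have h0 : f = 0 := LocData.hom_ext (h2.resolve_left h)
          have e1 : G.E.obj.map f = 0 := by
            rw [h0]
            have := G.E.property.map_smul (0 : k) (0 : S ⟶ T)
            rw [smul_zero] at this
            rw [this, zero_smul]
          have e2 : F.obj.map f = 0 := by
            rw [h0]
            have := F.property.map_smul (0 : k) (0 : S ⟶ T)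
            rw [smul_zero] at this
            rw [this, zero_smul]
          rw [e1, e2]
          exact map_zero (G.homAux F x T.of) }

lemma cp_hom_bas [Fintype ι] [DecidableEq ι] (F : CohRep D.src) (x : ι → ∀ S, D.V F S)
    (hx : ∀ (q : ι) {S T : ObX} (h : S ≤ T),
      x q T = D.ac F h (G.g q T / G.g q S) (G.cart q h).2 (x q S)) (S : ObX) (q : ι) :
    cp (G.hom F x hx) S (show D.V G.E S from G.bas S q) = x q S := by
  change ∑ q', D.ac F le_rfl ((G.bas S q).1 q' / G.g q' S) _ (x q' S) = _
  rw [Finset.sum_eq_single q]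
  · rw [ac_congr _ _ (show (G.bas S q).1 q / G.g q S = 1 by
      change (Pi.single q (G.g q S) : ι → K) q / G.g q S = 1
      rw [Pi.single_eq_same, div_self (G.ne _ _)]), ac_one']
  · intro b _ hb
    rw [ac_congr _ _ (show (G.bas S q).1 b / G.g b S = 0 by
      change (Pi.single q (G.g q S) : ι → K) b / G.g b S = 0
      rw [Pi.single_eq_of_ne hb, zero_div]), ac_zero]
  · intro h
    exact absurd (Finset.mem_univ _) h

end Gens

end TCSys

end BadRed
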