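import Pool.Agent.Lib.MP_55c1e7_ag.T.Test
import Pool.Agent.Lib.MP_55c1e7_ag.T.Ext

/-!
# Morphisms out of `Psi E` for the test objects `E`
-/

open CategoryTheory CategoryTheory.Limits MP55c1e7

namespace BadRed

open Ch LocData

variable {k K : Type} [Field k] [Field K] [Algebra k K]
variable {ObX ObZ I Lam : Type} [Preorder ObX] [SemilatticeSup ObZ]

namespace TCSys

variable (D : TCSys k K ObX ObZ I Lam) (b : Bool) {ι : Type} [Finite ι] (c : ι → Bool) (n : ι → ℕ)

/-- the tautological sections -/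
def eps [DecidableEq ι] (q : ι) (J : ObZ) : D.H0k (D.tg b c n).E J (lab b (c q)) :=
  ⟨((D.tg b c n).bas (D.s c0 J) q, (D.tg b c n).bas (D.s c1 J) q), by
    rw [mem_H0k]
    have key : (D.tg b c n).mulMap 1 (D.mem_src (D.le0 J) (D.A _).one_mem)
        ((D.tg b c n).bas (D.s c0 J) q) =
        (D.tg b c n).mulMap (D.u J ^ lab b (c q)) (D.mem_src (D.le1 J) (D.u_zpow_mem J _))
        ((D.tg b c n).bas (D.s c1 J) q) := by
      apply Subtype.ext
      funext q'
      change 1 * (Pi.single q ((D.tg b c n).g q (D.s c0 J)) : ι → K) q' =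
        D.u J ^ lab b (c q) * (Pi.single q ((D.tg b c n).g q (D.s c1 J)) : ι → K) q'
      by_cases h : q' = q
      · subst h
        rw [Pi.single_eq_same, Pi.single_eq_same, one_mul, tg_u]
      · rw [Pi.single_eq_of_ne h, Pi.single_eq_of_ne h, mul_zero, mul_zero]
    exact key⟩

/-- coefficients of a section of `Psi E` -/
def coef {l : ℤ} (J : ObZ) (m : D.H0k (D.tg b c n).E J l) (q : ι) : K :=
  (show (D.tg b c n).sub (D.s c0 J) from m.1.1).1 q * D.gen (D.s c0 J) ^ l * D.sig J ^ n q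

lemma coef_eq1 {l : ℤ} (J : ObZ) (m : D.H0k (D.tg b c n).E J l) (q : ι) :
    D.coef b c n J m q =
      (show (D.tg b c n).sub (D.s c1 J) from m.1.2).1 q * D.gen (D.s c1 J) ^ l * D.sig J ^ n q := by
  have h1 : (D.tg b c n).mulMap 1 (D.mem_src (D.le0 J) (D.A _).one_mem) m.1.1 =
        (D.tg b c n).mulMap (D.u J ^ l) (D.mem_src (D.le1 J) (D.u_zpow_mem J _)) m.1.2 :=
    (D.mem_H0k _ J l m.1).1 m.2
  have h2 : (1 : K) * (show (D.tg b c n).sub (D.s c0 J) from m.1.1).1 q = D.u J ^ l *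
    (show (D.tg b c n).sub (D.s c1 J) from m.1.2).1 q :=
    congrFun (congrArg Subtype.val h1) q
  unfold coef
  rw [one_mul] at h2
  rw [h2, u, div_zpow]
  have h3 := zpow_ne_zero l (D.gen_ne (D.s c0 J))
  field_simp

omit [Finite ι] in
lemma tg_inv (q : ι) (e : Ch) (J : ObZ) (x : K) :
    x / (D.tg b c n).g q (D.s e J) = x * D.gen (D.s e J) ^ lab b (c q) * D.sig J ^ n q := by
  rw [tg_s, zpow_neg]
  have h3 := zpow_ne_zero (lab b (c q)) (D.gen_ne (D.s e J))
  have h4 := pow_ne_zero (n q) (D.sig_ne J)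
  field_simp

lemma coef_mem {l : ℤ} (J : ObZ) (m : D.H0k (D.tg b c n).E J l) (q : ι) :
    D.coef b c n J m q ∈ D.HH (l - lab b (c q)) J := by
  constructor
  · refine mem_pw.mpr ?_
    have h1 := (show (D.tg b c n).sub (D.s c0 J) from m.1.1).2 q
    rw [tg_inv] at h1
    have e : D.coef b c n J m q * D.gen (D.s c0 J) ^ (-(l - lab b (c q))) =
        (show (D.tg b c n).sub (D.s c0 J) from m.1.1).1 q * D.gen (D.s c0 J) ^ lab b (c q) *
          D.sig J ^ n q := by
      unfold coef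
      have h2 := D.gen_ne (D.s c0 J)
      rw [show -(l - lab b (c q)) = lab b (c q) - l by ring, zpow_sub₀ h2]
      have h3 := zpow_ne_zero l h2
      field_simp
    rw [e]
    exact h1
  · refine mem_pw.mpr ?_
    have h1 := (show (D.tg b c n).sub (D.s c1 J) from m.1.2).2 q
    rw [tg_inv] at h1
    have e : D.coef b c n J m q * D.gen (D.s c1 J) ^ (-(l - lab b (c q))) =
        (show (D.tg b c n).sub (D.s c1 J) from m.1.2).1 q * D.gen (D.s c1 J) ^ lab b (c q) *
          D.sig J ^ n q := by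
      rw [coef_eq1]
      have h2 := D.gen_ne (D.s c1 J)
      rw [show -(l - lab b (c q)) = lab b (c q) - l by ring, zpow_sub₀ h2]
      have h3 := zpow_ne_zero l h2
      field_simp
    rw [e]
    exact h1

lemma coef_mem' {J : ObZ} {d : Bool} (m : D.H0k (D.tg b c n).E J (lab b d)) (q : ι) :
    D.coef b c n J m q ∈ (D.targ b).H (J, c q) (J, d) :=
  ⟨D.coef_mem b c n J m q, Or.inl le_rfl⟩

/-- decomposition of the sections of `Psi E` -/
lemma psi_decomp [Fintype ι] [DecidableEq ι] {J : ObZ} {d : Bool}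
    (m : D.H0k (D.tg b c n).E J (lab b d)) :
    m = ∑ q, D.pmap b (D.tg b c n).E (x := (J, c q)) (y := (J, d)) (D.coef b c n J m q)
      (D.coef_mem' b c n m q) (D.eps b c n q J) := by
  apply Subtype.ext
  rw [AddSubmonoidClass.coe_finsetSum]
  apply Prod.ext
  · rw [Prod.fst_sum]
    refine ((D.tg b c n).decomp (D.s c0 J) m.1.1).trans ?_
    refine Finset.sum_congr rfl fun q _ => ?_
    rw [D.pmap_of_le b _ (x := (J, c q)) (y := (J, d)) _ _ le_rfl]
    refine ac_congr _ _ ?_ _
    rw [tg_inv]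
    unfold cf coef
    dsimp only
    rw [zpow_neg]
    have h3 := zpow_ne_zero (lab b d) (D.gen_ne (D.s c0 J))
    field_simp
  · rw [Prod.snd_sum]
    refine ((D.tg b c n).decomp (D.s c1 J) m.1.2).trans ?_
    refine Finset.sum_congr rfl fun q _ => ?_
    rw [D.pmap_of_le b _ (x := (J, c q)) (y := (J, d)) _ _ le_rfl]
    refine ac_congr _ _ ?_ _
    rw [tg_inv, coef_eq1]
    unfold cf
    dsimp only
    rw [zpow_neg]
    have h3 := zpow_ne_zero (lab b d) (D.gen_ne (D.s c1 J))
    field_simp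

end TCSys

end BadRed
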