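import Pool.Agent.Lib.MP_55c1e7_ag.T.Line
import Pool.Agent.Lib.MP_55c1e7_ag.Psi

/-!
# The test objects: sums of `L^(-lab c) ⊗ M^(-n)`
-/

open CategoryTheory CategoryTheory.Limits MP55c1e7

namespace BadRed

open Ch LocData

variable {k K : Type} [Field k] [Field K] [Algebra k K]
variable {ObX ObZ I Lam : Type} [Preorder ObX] [SemilatticeSup ObZ]

lemma div_aux (a a' x x' : K) (m : ℤ) (n : ℕ) :
    (a ^ m / x ^ n) / (a' ^ m / x' ^ n) = (a / a') ^ m * (x' / x) ^ n := by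
  rw [div_zpow, div_pow, div_div_div_eq, div_mul_div_comm, mul_comm (x ^ n)]

namespace TCSys

variable (D : TCSys k K ObX ObZ I Lam)

lemma R_le' (T : ObX) : D.R (D.pr T) ≤ D.A T := by
  obtain ⟨e, he⟩ := D.s_pr T
  have := D.R_le e (D.pr T)
  rwa [he] at this

/-- generators of the test objects -/
def tg (b : Bool) {ι : Type} (c : ι → Bool) (n : ι → ℕ) : D.Gens ι where
  g q S := D.gen S ^ (-(lab b (c q))) / D.sig (D.pr S) ^ n q
  ne q S := div_ne_zero (zpow_ne_zero _ (D.gen_ne S)) (pow_ne_zero _ (D.sig_ne _))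
  cart q {S T} h := by
    have h1 := D.cart h
    have h2 := D.sig_cart (D.pr_mono h)
    constructor
    · rw [div_aux]
      refine (D.A T).mul_mem (zpow_mem_of h1.1 (by rw [inv_div]; exact h1.2) _)
        ((D.A T).pow_mem (D.R_le' T h2.2) _)
    · rw [div_aux]
      refine (D.A T).mul_mem (zpow_mem_of h1.2 (by rw [inv_div]; exact h1.1) _)
        ((D.A T).pow_mem (D.R_le' T h2.1) _)

lemma tg_s (b : Bool) {ι : Type} (c : ι → Bool) (n : ι → ℕ) (q : ι) (e : Ch) (J : ObZ) :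
    (D.tg b c n).g q (D.s e J) = D.gen (D.s e J) ^ (-(lab b (c q))) / D.sig J ^ n q := by
  change D.gen _ ^ _ / D.sig (D.pr _) ^ n q = _
  rw [D.pr_s]

lemma tg_u (b : Bool) {ι : Type} (c : ι → Bool) (n : ι → ℕ) (q : ι) (J : ObZ) :
    (D.tg b c n).g q (D.s c0 J) =
      D.u J ^ (lab b (c q)) * (D.tg b c n).g q (D.s c1 J) := by
  rw [tg_s, tg_s, u, div_zpow, zpow_neg, zpow_neg]
  have h1 := zpow_ne_zero (lab b (c q)) (D.gen_ne (D.s c0 J))
  have h2 := zpow_ne_zero (lab b (c q)) (D.gen_ne (D.s c1 J))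
  field_simp

/-! vanishing -/

lemma split0 (J : ObZ) {a : K} (ha : a ∈ D.A (D.s c0 J)) :
    ∃ r ∈ D.R J, ∃ a' ∈ D.A (D.s c0 J), a = r + D.u J * a' := by
  let B : Subalgebra k K :=
    { carrier := {a | ∃ r ∈ D.R J, ∃ a' ∈ D.A (D.s c0 J), a = r + D.u J * a'}
      mul_mem' := by
        rintro x y ⟨r, hr, a, ha, rfl⟩ ⟨r', hr', a', ha', rfl⟩
        refine ⟨r * r', (D.R J).mul_mem hr hr', r * a' + a * r' + D.u J * (a * a'), ?_, by ring⟩
        have h1 := D.R_le c0 J hr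
        have h2 := D.R_le c0 J hr'
        exact (D.A _).add_mem ((D.A _).add_mem ((D.A _).mul_mem h1 ha') ((D.A _).mul_mem ha h2))
          ((D.A _).mul_mem (D.u_mem0 J) ((D.A _).mul_mem ha ha'))
      add_mem' := by
        rintro x y ⟨r, hr, a, ha, rfl⟩ ⟨r', hr', a', ha', rfl⟩
        exact ⟨r + r', (D.R J).add_mem hr hr', a + a', (D.A _).add_mem ha ha', by ring⟩
      algebraMap_mem' := fun r => ⟨algebraMap k K r, (D.R J).algebraMap_mem r, 0,
        (D.A _).zero_mem, by rw [mul_zero, add_zero]⟩ }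
  have hB : D.A (D.s c0 J) ≤ B := by
    refine (D.adj0 J).trans (sup_le ?_ ?_)
    · intro r hr
      exact ⟨r, hr, 0, (D.A _).zero_mem, by rw [mul_zero, add_zero]⟩
    · rw [Algebra.adjoin_le_iff]
      rintro _ rfl
      exact ⟨0, (D.R J).zero_mem, 1, (D.A _).one_mem, by rw [mul_one, zero_add]; rfl⟩
  exact hB ha

lemma split01 (J : ObZ) {w : K} (hw : w ∈ D.A (D.s c01 J)) :
    ∃ a ∈ D.A (D.s c0 J), ∃ b ∈ D.A (D.s c1 J), w = a + (D.u J)⁻¹ * b := by
  obtain ⟨n, hn⟩ := D.loc0 J w hw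
  have key : ∀ (n : ℕ) (w : K), D.u J ^ n * w ∈ D.A (D.s c0 J) →
      ∃ a ∈ D.A (D.s c0 J), ∃ b ∈ D.A (D.s c1 J), w = a + (D.u J)⁻¹ * b := by
    intro n
    induction n with
    | zero =>
      intro w hw
      rw [pow_zero, one_mul] at hw
      exact ⟨w, hw, 0, (D.A _).zero_mem, by rw [mul_zero, add_zero]⟩
    | succ n ih =>
      intro w hw
      obtain ⟨a, ha, b, hb, e⟩ := ih (D.u J * w) (by
        rw [← mul_assoc, ← pow_succ]; exact hw)
      obtain ⟨r, hr, a', ha', rfl⟩ := D.split0 J ha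
      refine ⟨a', ha', r + (D.u J)⁻¹ * b, (D.A _).add_mem (D.R_le c1 J hr)
        ((D.A _).mul_mem (D.u_inv_mem1 J) hb), ?_⟩
      have hu := D.u_ne J
      have e2 : w = (D.u J)⁻¹ * (D.u J * w) := by field_simp
      rw [e2, e]
      field_simp
      ring
  exact key n w hn

lemma lab_mem (b c : Bool) (J : ObZ) : D.u J ^ (lab b c) ∈ D.A (D.s c1 J) := by
  unfold lab
  split_ifs
  · rw [zpow_neg_one]; exact D.u_inv_mem1 J
  · rw [zpow_zero]; exact (D.A _).one_mem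

lemma test_E (b : Bool) {ι : Type} [Finite ι] (c : ι → Bool) (n : ι → ℕ) :
    D.E (D.tg b c n).E := by
  intro J z
  have hz : ∀ q, (show (D.tg b c n).sub (D.s c01 J) from z).1 q / (D.tg b c n).g q (D.s c0 J) ∈
      D.A (D.s c01 J) := by
    intro q
    have h1 := (show (D.tg b c n).sub (D.s c01 J) from z).2 q
    have h2 := ((D.tg b c n).cart q (D.le0 J)).2
    have h3 := (D.A _).mul_mem h1 h2
    have h4 := (D.tg b c n).ne q (D.s c01 J)
    rwa [div_mul_div_cancel₀ h4] at h3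
  choose a ha b' hb' h using fun q => D.split01 J (hz q)
  have h0 := fun q => (D.tg b c n).ne q (D.s c0 J)
  have h1 := fun q => (D.tg b c n).ne q (D.s c1 J)
  have ha2 : (fun q => (D.tg b c n).g q (D.s c0 J) * a q) ∈ (D.tg b c n).sub (D.s c0 J) := by
    intro q
    dsimp only
    rw [mul_div_cancel_left₀ _ (h0 q)]
    exact ha q
  have hb2 : (fun q => (D.tg b c n).g q (D.s c0 J) * b' q) ∈ (D.tg b c n).sub (D.s c1 J) := by
    intro q
    dsimp only
    rw [tg_u, mul_assoc, mul_comm _ (b' q), ← mul_assoc, mul_div_cancel_right₀ _ (h1 q)]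
    exact (D.A _).mul_mem (D.lab_mem b _ J) (hb' q)
  refine ⟨⟨_, ha2⟩, ⟨_, hb2⟩, ?_⟩
  have key : (show (D.tg b c n).sub (D.s c01 J) from z) =
      (D.tg b c n).mulMap 1 (D.mem_src (D.le0 J) (D.A _).one_mem) ⟨_, ha2⟩ +
      (D.tg b c n).mulMap (D.u J ^ (-1 : ℤ)) (D.mem_src le_rfl (D.u_zpow_mem J (-1)))
        ((D.tg b c n).mulMap 1 (D.mem_src (D.le1 J) (D.A _).one_mem) ⟨_, hb2⟩) := by
    apply Subtype.ext
    funext q
    change (show (D.tg b c n).sub (D.s c01 J) from z).1 q =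
      1 * ((D.tg b c n).g q (D.s c0 J) * a q) +
      D.u J ^ (-1 : ℤ) * (1 * ((D.tg b c n).g q (D.s c0 J) * b' q))
    have h2 := h q
    rw [div_eq_iff (h0 q)] at h2
    rw [h2, zpow_neg_one]
    ring
  rw [tc_T, Tequiv_zpow]
  exact key

end TCSys

end BadRed
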