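import Pool.Agent.Lib.MP_55c1e7_ag.T.Gen2

/-!
# `Psi` is fully faithful on morphisms out of test objects
-/

open CategoryTheory CategoryTheory.Limits MP55c1e7

namespace BadRed

open Ch LocData

variable {k K : Type} [Field k] [Field K] [Algebra k K]
variable {ObX ObZ I Lam : Type} [Preorder ObX] [SemilatticeSup ObZ]

namespace TCSys

variable (D : TCSys k K ObX ObZ I Lam)

section

variable {D} {ι : Type} (G : D.Gens ι)

lemma Gens.bas_res [Finite ι] [DecidableEq ι] {S T : ObX} (h : S ≤ T) (q : ι) :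
    (show D.V G.E T from G.bas T q) =
      D.ac G.E h (G.g q T / G.g q S) (G.cart q h).2 (show D.V G.E S from G.bas S q) := by
  have key : G.bas T q = G.mulMap (G.g q T / G.g q S) (D.mem_src h (G.cart q h).2)
      (G.bas S q) := by
    apply Subtype.ext
    funext q'
    change (Pi.single q (G.g q T) : ι → K) q' =
      (G.g q T / G.g q S) * (Pi.single q (G.g q S) : ι → K) q'
    by_cases hq : q' = q
    · subst hq
      rw [Pi.single_eq_same, Pi.single_eq_same, div_mul_cancel₀ _ (G.ne _ _)]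
    · rw [Pi.single_eq_of_ne hq, Pi.single_eq_of_ne hq, mul_zero]
  exact key

end

lemma A_le_of_01 {J J' : ObZ} (hJ : J ≤ J') (hs : D.special J' → D.special J)
    (h : D.s c0 J ≤ D.s c1 J') : D.A (D.s c01 J') ≤ D.A (D.s c1 J') := by
  have h0 : D.A (D.s c0 J') ≤ D.A (D.s c1 J') := by
    intro f hf
    obtain ⟨t, ht, ht0, hti, htf⟩ := D.den hJ hs c0 f hf
    have e : f = t⁻¹ * (t * f) := by field_simp
    rw [e]
    exact (D.A _).mul_mem (D.R_le c1 J' hti) (D.mono h htf)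
  intro f hf
  obtain ⟨m, hm⟩ := D.loc1 J' f hf
  have hu : D.u J' ^ m ∈ D.A (D.s c1 J') := (D.A _).pow_mem (h0 (D.u_mem0 J')) m
  have e : f = D.u J' ^ m * ((D.gen (D.s c0 J') / D.gen (D.s c1 J')) ^ m * f) := by
    rw [← mul_assoc, ← mul_pow, u, div_mul_div_cancel₀ (D.gen_ne _), div_self (D.gen_ne _),
      one_pow, one_mul]
  rw [e]
  exact (D.A _).mul_mem hu hm

lemma A_le_of_10 {J J' : ObZ} (hJ : J ≤ J') (hs : D.special J' → D.special J)
    (h : D.s c1 J ≤ D.s c0 J') : D.A (D.s c01 J') ≤ D.A (D.s c0 J') := by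
  have h0 : D.A (D.s c1 J') ≤ D.A (D.s c0 J') := by
    intro f hf
    obtain ⟨t, ht, ht0, hti, htf⟩ := D.den hJ hs c1 f hf
    have e : f = t⁻¹ * (t * f) := by field_simp
    rw [e]
    exact (D.A _).mul_mem (D.R_le c0 J' hti) (D.mono h htf)
  intro f hf
  obtain ⟨m, hm⟩ := D.loc0 J' f hf
  have hu : (D.u J')⁻¹ ^ m ∈ D.A (D.s c0 J') := (D.A _).pow_mem (h0 (D.u_inv_mem1 J')) m
  have e : f = (D.u J')⁻¹ ^ m * ((D.gen (D.s c1 J') / D.gen (D.s c0 J')) ^ m * f) := by
    rw [← mul_assoc, ← mul_pow, u_inv, div_mul_div_cancel₀ (D.gen_ne _), div_self (D.gen_ne _),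
      one_pow, one_mul]
  rw [e]
  exact (D.A _).mul_mem hu hm

variable (b : Bool) {ι : Type} [Finite ι] (c : ι → Bool) (n : ι → ℕ)

theorem test_inj {F : CohRep D.src} (φ : (D.tg b c n).E ⟶ F) (h : (D.Psi b).map φ = 0) :
    φ = 0 := by
  classical
  have h1 : ∀ (q : ι) (J : ObZ), D.psiHom φ J (lab b (c q)) (D.eps b c n q J) = 0 := by
    intro q J
    exact congrArg (fun t => (t.hom.app ⟨(J, c q)⟩).hom (D.eps b c n q J)) h
  have h2 : ∀ (q : ι) (J : ObZ), Gens.cp φ (D.s c0 J)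
      (show D.V (D.tg b c n).E (D.s c0 J) from (D.tg b c n).bas (D.s c0 J) q) = 0 := by
    intro q J
    exact congrArg (fun t => t.1.1) (h1 q J)
  have h3 : ∀ (q : ι) (J : ObZ), Gens.cp φ (D.s c1 J)
      (show D.V (D.tg b c n).E (D.s c1 J) from (D.tg b c n).bas (D.s c1 J) q) = 0 := by
    intro q J
    exact congrArg (fun t => t.1.2) (h1 q J)
  apply (D.tg b c n).hom_ext'
  intro S q
  change _ = 0
  obtain ⟨e, he⟩ := D.s_pr S
  rw [← he]
  generalize D.pr S = J
  cases e with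
  | c0 => exact h2 q J
  | c1 => exact h3 q J
  | c01 => rw [(D.tg b c n).bas_res (D.le0 J), Gens.cp_ac, h2, map_zero]

/-! ## local elements given by sections over the open sets of the base -/

section rel

variable {D} {Y : CohRep D.src} (g : ObX → K)
  (cart : ∀ {S T : ObX}, S ≤ T → g S / g T ∈ D.A T ∧ g T / g S ∈ D.A T)
  (ne : ∀ S, g S ≠ 0)

/-- `y` over `T` is the restriction of `x` over `S` -/
def Rel {S T : ObX} (h : S ≤ T) (x : D.V Y S) (y : D.V Y T) : Prop :=
  y = D.ac Y h (g T / g S) (cart h).2 x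

include ne

lemma Rel.refl {S : ObX} (h : S ≤ S) (x : D.V Y S) : Rel g cart h x x := by
  unfold Rel
  rw [ac_congr _ _ (div_self (ne S)), ac_one']

lemma Rel.trans {S T U : ObX} {h : S ≤ T} {h' : T ≤ U} {x : D.V Y S} {y : D.V Y T}
    {z : D.V Y U} (h1 : Rel g cart h x y) (h2 : Rel g cart h' y z) :
    Rel g cart (h.trans h') x z := by
  unfold Rel at *
  rw [h2, h1, ac_ac]
  refine ac_congr _ _ ?_ _
  have := ne T
  have := ne S
  field_simp

lemma Rel.cancel {S T U : ObX} {h : S ≤ T} {h' : T ≤ U} {x : D.V Y S} {y : D.V Y T}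
    {z : D.V Y U} (h1 : Rel g cart h x y) (h2 : Rel g cart (h.trans h') x z) :
    Rel g cart h' y z := by
  unfold Rel at *
  rw [h2, h1, ac_ac]
  refine ac_congr _ _ ?_ _
  have := ne T
  have := ne S
  field_simp

/-- over isomorphic open sets restriction is injective -/
lemma Rel.inj {T U : ObX} (h : T ≤ U) (hA : D.A U ≤ D.A T) {y y' : D.V Y T} {z : D.V Y U}
    (h1 : Rel g cart h y z) (h2 : Rel g cart h y' z) : y = y' := by
  unfold Rel at *
  have e : D.ac Y h (g U / g T) (cart h).2 (y - y') = 0 := by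
    rw [map_sub, ← h1, ← h2, sub_self]
  have e2 : D.ac Y h 1 (D.A U).one_mem (y - y') = 0 := by
    have := congrArg (D.ac Y le_rfl (g T / g U) (cart h).1) e
    rw [ac_ac, map_zero] at this
    rw [← this]
    refine ac_congr _ _ ?_ _
    have := ne T
    have := ne U
    field_simp
  obtain ⟨f, hf, hf0, hfi, hfy⟩ := D.ex_inj Y h (y - y') e2
  have e3 := congrArg (D.ac Y le_rfl f⁻¹ (hA hfi)) hfy
  rw [ac_ac, map_zero, ac_congr _ _ (mul_inv_cancel₀ hf0), ac_one'] at e3
  exact sub_eq_zero.1 e3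

lemma rel_all (z : ∀ e J, D.V Y (D.s e J))
    (hz0 : ∀ {J J' : ObZ} (h : J ≤ J'), Rel g cart (D.s_mono c0 h) (z c0 J) (z c0 J'))
    (hz1 : ∀ {J J' : ObZ} (h : J ≤ J'), Rel g cart (D.s_mono c1 h) (z c1 J) (z c1 J'))
    (r0 : ∀ J, Rel g cart (D.le0 J) (z c0 J) (z c01 J))
    (r1 : ∀ J, Rel g cart (D.le1 J) (z c1 J) (z c01 J))
    (e e' : Ch) {J J' : ObZ} (h : D.s e J ≤ D.s e' J') : Rel g cart h (z e J) (z e' J') := by
  have hJ : J ≤ J' := by
    have := D.pr_mono h
    rwa [D.pr_s, D.pr_s] at this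
  have a00 := hz0 hJ
  have a11 := hz1 hJ
  have a0 := Rel.trans g cart ne a00 (r0 J')
  have a1 := Rel.trans g cart ne a11 (r1 J')
  cases e with
  | c0 =>
    cases e' with
    | c0 => exact a00
    | c01 => exact a0
    | c1 =>
      by_cases hs : D.special J' → D.special J
      · have h1 : Rel g cart (D.le1 J') (D.ac Y h (g (D.s c1 J') / g (D.s c0 J)) (cart h).2
            (z c0 J)) (z c01 J') :=
          Rel.cancel g cart ne (h := h) (h' := D.le1 J') (x := z c0 J) rfl a0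
        exact Rel.inj g cart ne (D.le1 J') (D.A_le_of_01 hJ hs h) (r1 J') h1
      · have hs2 : ¬ D.special J := fun h3 => hs fun _ => h3
        have hd := D.degen J hs2
        have h1 : Rel g cart hd.2 (z c01 J) (z c1 J) :=
          Rel.cancel g cart ne (h := D.le1 J) (h' := hd.2) (r1 J) (Rel.refl g cart ne _ _)
        exact Rel.trans g cart ne (Rel.trans g cart ne (r0 J) h1) a11
  | c1 =>
    cases e' with
    | c1 => exact a11
    | c01 => exact a1
    | c0 =>
      by_cases hs : D.special J' → D.special J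
      · have h1 : Rel g cart (D.le0 J') (D.ac Y h (g (D.s c0 J') / g (D.s c1 J)) (cart h).2
            (z c1 J)) (z c01 J') :=
          Rel.cancel g cart ne (h := h) (h' := D.le0 J') (x := z c1 J) rfl a1
        exact Rel.inj g cart ne (D.le0 J') (D.A_le_of_10 hJ hs h) (r0 J') h1
      · have hs2 : ¬ D.special J := fun h3 => hs fun _ => h3
        have hd := D.degen J hs2
        have h1 : Rel g cart hd.1 (z c01 J) (z c0 J) :=
          Rel.cancel g cart ne (h := D.le0 J) (h' := hd.1) (r0 J) (Rel.refl g cart ne _ _)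
        exact Rel.trans g cart ne (Rel.trans g cart ne (r1 J) h1) a00
  | c01 =>
    cases e' with
    | c0 => exact Rel.cancel g cart ne (h := D.le0 J) (h' := h) (r0 J) a00
    | c1 => exact Rel.cancel g cart ne (h := D.le1 J) (h' := h) (r1 J) a11
    | c01 => exact Rel.cancel g cart ne (h := D.le0 J) (h' := h) (r0 J) a0

end rel

/-! ## fullness -/

section surj

variable {Y : CohRep D.src}

/-- the component of a morphism between sections -/
noncomputable def pc {F : CohRep D.src} (ψ : (D.Psi b).obj F ⟶ (D.Psi b).obj Y) (J : ObZ) (d : Bool) :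
    D.H0k F J (lab b d) →ₗ[k] D.H0k Y J (lab b d) := (ψ.hom.app ⟨(J, d)⟩).hom

omit [Finite ι] in
lemma pc_pmap {F : CohRep D.src} (ψ : (D.Psi b).obj F ⟶ (D.Psi b).obj Y) {J J' : ObZ}
    {d d' : Bool} (f : K) (hf : f ∈ (D.targ b).H (J, d) (J', d')) (m : D.H0k F J (lab b d)) :
    D.pc b ψ J' d' (D.pmap b F (x := (J, d)) (y := (J', d')) f hf m) =
      D.pmap b Y (x := (J, d)) (y := (J', d')) f hf (D.pc b ψ J d m) :=
  act_naturality ψ.hom hf m

lemma eps_res [DecidableEq ι] (q : ι) {J J' : ObZ} (h : J ≤ J') :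
    D.eps b c n q J' = D.pmap b (D.tg b c n).E (x := (J, c q)) (y := (J', c q))
      ((D.sig J / D.sig J') ^ n q) (D.mem_targ (c q) h (sigr_mem h _)) (D.eps b c n q J) := by
  rw [D.pmap_of_le b _ (x := (J, c q)) (y := (J', c q)) _ _ h]
  have key : ∀ e : Ch, D.cf e J J' (lab b (c q)) (lab b (c q)) ((D.sig J / D.sig J') ^ n q) =
      (D.tg b c n).g q (D.s e J') / (D.tg b c n).g q (D.s e J) := by
    intro e
    rw [tg_s, tg_s]
    unfold cf
    rw [div_pow, zpow_neg, zpow_neg]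
    have h1 := zpow_ne_zero (lab b (c q)) (D.gen_ne (D.s e J))
    have h2 := zpow_ne_zero (lab b (c q)) (D.gen_ne (D.s e J'))
    have h3 := pow_ne_zero (n q) (D.sig_ne J)
    have h4 := pow_ne_zero (n q) (D.sig_ne J')
    field_simp
  apply D.H0k_ext
  · exact ((D.tg b c n).bas_res (D.s_mono c0 h) q).trans (ac_congr _ _ (key c0).symm _)
  · exact ((D.tg b c n).bas_res (D.s_mono c1 h) q).trans (ac_congr _ _ (key c1).symm _)

/-- local elements attached to sections -/
def zz (q : ι) (w : ∀ J, D.H0k Y J (lab b (c q))) (e : Ch) (J : ObZ) : D.V Y (D.s e J) :=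
  match e with
  | c0 => (w J).1.1
  | c1 => (w J).1.2
  | c01 => D.ac Y (D.le0 J) ((D.tg b c n).g q (D.s c01 J) / (D.tg b c n).g q (D.s c0 J))
      ((D.tg b c n).cart q (D.le0 J)).2 (w J).1.1

theorem test_surj (ψ : (D.Psi b).obj (D.tg b c n).E ⟶ (D.Psi b).obj Y) :
    ∃ φ : (D.tg b c n).E ⟶ Y, (D.Psi b).map φ = ψ := by
  classical
  cases nonempty_fintype ι
  obtain ⟨w, hw⟩ : ∃ w : ∀ (q : ι) (J : ObZ), D.H0k Y J (lab b (c q)),
      ∀ q J, w q J = D.pc b ψ J (c q) (D.eps b c n q J) := ⟨fun q J => _, fun q J => rfl⟩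
  have hres : ∀ (q : ι) {J J' : ObZ} (h : J ≤ J'), w q J' =
      D.pmap b Y (x := (J, c q)) (y := (J', c q)) ((D.sig J / D.sig J') ^ n q)
        (D.mem_targ (c q) h (sigr_mem h _)) (w q J) := by
    intro q J J' h
    rw [hw, D.eps_res b c n q h, pc_pmap, ← hw]
  have key : ∀ (e : Ch) (q : ι) (J J' : ObZ),
      D.cf e J J' (lab b (c q)) (lab b (c q)) ((D.sig J / D.sig J') ^ n q) =
      (D.tg b c n).g q (D.s e J') / (D.tg b c n).g q (D.s e J) := by
    intro e q J J'
    rw [tg_s, tg_s]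
    unfold cf
    rw [div_pow, zpow_neg, zpow_neg]
    have h1 := zpow_ne_zero (lab b (c q)) (D.gen_ne (D.s e J))
    have h2 := zpow_ne_zero (lab b (c q)) (D.gen_ne (D.s e J'))
    have h3 := pow_ne_zero (n q) (D.sig_ne J)
    have h4 := pow_ne_zero (n q) (D.sig_ne J')
    field_simp
  have hz0 : ∀ (q : ι) {J J' : ObZ} (h : J ≤ J'), Rel ((D.tg b c n).g q) ((D.tg b c n).cart q)
      (D.s_mono c0 h) (D.zz b c n q (w q) c0 J) (D.zz b c n q (w q) c0 J') := by
    intro q J J' h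
    have h1 := congrArg (fun t => t.1.1) (hres q h)
    rw [D.pmap_of_le b _ (x := (J, c q)) (y := (J', c q)) _ _ h] at h1
    exact h1.trans (ac_congr _ _ (key c0 q J J') _)
  have hz1 : ∀ (q : ι) {J J' : ObZ} (h : J ≤ J'), Rel ((D.tg b c n).g q) ((D.tg b c n).cart q)
      (D.s_mono c1 h) (D.zz b c n q (w q) c1 J) (D.zz b c n q (w q) c1 J') := by
    intro q J J' h
    have h1 := congrArg (fun t => t.1.2) (hres q h)
    rw [D.pmap_of_le b _ (x := (J, c q)) (y := (J', c q)) _ _ h] at h1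
    exact h1.trans (ac_congr _ _ (key c1 q J J') _)
  have r0 : ∀ (q : ι) (J : ObZ), Rel ((D.tg b c n).g q) ((D.tg b c n).cart q)
      (D.le0 J) (D.zz b c n q (w q) c0 J) (D.zz b c n q (w q) c01 J) := fun q J => rfl
  have r1 : ∀ (q : ι) (J : ObZ), Rel ((D.tg b c n).g q) ((D.tg b c n).cart q)
      (D.le1 J) (D.zz b c n q (w q) c1 J) (D.zz b c n q (w q) c01 J) := by
    intro q J
    have h1 := (D.mem_H0k Y J _ (w q J).1).mp (w q J).2
    have hm : (D.tg b c n).g q (D.s c01 J) / (D.tg b c n).g q (D.s c0 J) ∈ D.A (D.s c01 J) :=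
      ((D.tg b c n).cart q (D.le0 J)).2
    have h2 := congrArg (D.ac Y le_rfl _ hm) h1
    rw [ac_ac, ac_ac] at h2
    refine Eq.trans (Eq.trans ?_ h2) ?_
    · exact ac_congr _ _ (one_mul _).symm _
    · refine ac_congr _ _ ?_ _
      rw [tg_u]
      have h3 := zpow_ne_zero (lab b (c q)) (D.u_ne J)
      have h4 := (D.tg b c n).ne q (D.s c1 J)
      field_simp
  have all := fun (q : ι) (e e' : Ch) {J J' : ObZ} (h : D.s e J ≤ D.s e' J') =>
    D.rel_all ((D.tg b c n).g q) ((D.tg b c n).cart q) ((D.tg b c n).ne q)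
      (D.zz b c n q (w q)) (hz0 q) (hz1 q) (r0 q) (r1 q) e e' h
  choose ee he using D.s_pr
  obtain ⟨x, hx⟩ : ∃ x : ι → ∀ S, D.V Y S, ∀ q S, x q S = D.ac Y (he S).le 1 (D.A S).one_mem
    (D.zz b c n q (w q) (ee S) (D.pr S)) := ⟨fun q S => _, fun q S => rfl⟩
  have hxr : ∀ q S, Rel ((D.tg b c n).g q) ((D.tg b c n).cart q) (he S).le
      (D.zz b c n q (w q) (ee S) (D.pr S)) (x q S) := by
    intro q S
    rw [hx]
    refine ac_congr _ _ ?_ _
    rw [he S, div_self ((D.tg b c n).ne q S)]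
  have hxx : ∀ q {S T : ObX} (h : S ≤ T), Rel ((D.tg b c n).g q) ((D.tg b c n).cart q) h
      (x q S) (x q T) := by
    intro q S T h
    have h1 : D.s (ee S) (D.pr S) ≤ D.s (ee T) (D.pr T) := by rw [he, he]; exact h
    have h2 := Rel.trans _ _ ((D.tg b c n).ne q) (all q _ _ h1) (hxr q T)
    exact Rel.cancel _ _ ((D.tg b c n).ne q) (h' := h) (hxr q S) h2
  have hxs : ∀ q e J, x q (D.s e J) = D.zz b c n q (w q) e J := by
    intro q e J
    have h1 := all q (ee (D.s e J)) e (he (D.s e J)).le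
    have h2 := hxr q (D.s e J)
    unfold Rel at h1 h2
    exact Eq.trans h2 h1.symm
  refine ⟨(D.tg b c n).hom Y x hxx, ?_⟩
  have hf : ∀ q J, D.psiHom ((D.tg b c n).hom Y x hxx) J (lab b (c q)) (D.eps b c n q J) =
      D.pc b ψ J (c q) (D.eps b c n q J) := by
    intro q J
    rw [← hw]
    apply D.H0k_ext
    · exact ((D.tg b c n).cp_hom_bas Y x hxx (D.s c0 J) q).trans (hxs q c0 J)
    · exact ((D.tg b c n).cp_hom_bas Y x hxx (D.s c1 J) q).trans (hxs q c1 J)
  have hf2 : ∀ J d (m : D.H0k (D.tg b c n).E J (lab b d)),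
      D.psiHom ((D.tg b c n).hom Y x hxx) J (lab b d) m = D.pc b ψ J d m := by
    intro J d m
    rw [D.psi_decomp b c n m, map_sum, map_sum]
    refine Finset.sum_congr rfl fun q _ => ?_
    rw [pc_pmap, ← hf]
    exact D.psiHom_pmap b _ (x := (J, c q)) (y := (J, d)) _ _
  ext X m
  exact hf2 X.of.1 X.of.2 m

end surj

end TCSys

end BadRed
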